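import Pool.Agent.Work.MP_db5cd1_nt.Cnt

/-!
# MP_db5cd1_nt: almost prime inverses of squares, for almost all primes

For all primes `p ≤ x` with at most `C x^0.9999` exceptions there are at least `p^0.19` primes
`k ≤ p^(1/5)` (so `k² < p`) such that the inverse `r` of `k²` modulo `p` in `{2, ..., p - 1}` is a
product of at most seven different primes, all of them larger than `p^(1/60)`.

Method: for a fixed modulus `d` the events `d ∣ r_k(p)` for different primes `k` are uncorrelated on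
average over all integers `m ≤ x` in place of `p` (complete sums modulo `d k² k'²`), which gives a
level of distribution `x^0.199` for all `m` outside a set of size `O(x^0.9999)`; then a weighted
Brun-Hooley sieve of dimension one.
-/

set_option autoImplicit false

namespace Pool.Agent.Results.MP_db5cd1_nt.AlmostPrimeInverses

open Pool.Agent.Work.MP_db5cd1_nt

theorem result : ∃ C : ℝ, ∀ x : ℕ, 1 ≤ x →
    (({p : ℕ | p.Prime ∧ p ≤ x ∧ ¬ ∃ T : Finset ℕ, (p : ℝ) ^ (0.19 : ℝ) ≤ T.card ∧ ∀ k ∈ T,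
      k.Prime ∧ k ^ 5 ≤ p ∧ ∃ r : ℕ, 1 < r ∧ r < p ∧ k ^ 2 * r ≡ 1 [MOD p] ∧ Squarefree r ∧
        r.primeFactors.card ≤ 7 ∧
        ∀ q : ℕ, q.Prime → q ∣ r → (p : ℝ) ^ (1 / 60 : ℝ) < q}.ncard : ℕ) : ℝ) ≤
      C * (x : ℝ) ^ (0.9999 : ℝ) := by
  classical
  obtain ⟨C, hC⟩ := count
  refine ⟨C, fun x hx => ?_⟩
  have h1 := hC x hx
  refine le_trans (le_of_eq ?_) h1
  have h2 : {p : ℕ | p.Prime ∧ p ≤ x ∧ ¬ ∃ T : Finset ℕ, (p : ℝ) ^ (0.19 : ℝ) ≤ T.card ∧ ∀ k ∈ T,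
      k.Prime ∧ k ^ 5 ≤ p ∧ ∃ r : ℕ, 1 < r ∧ r < p ∧ k ^ 2 * r ≡ 1 [MOD p] ∧ Squarefree r ∧
        r.primeFactors.card ≤ 7 ∧
        ∀ q : ℕ, q.Prime → q ∣ r → (p : ℝ) ^ (1 / 60 : ℝ) < q} =
      (((Finset.range (x + 1)).filter (fun p => p.Prime ∧ ¬ Good p) : Finset ℕ) : Set ℕ) := by
    ext p
    rw [Finset.coe_filter, Set.mem_setOf_eq, Set.mem_setOf_eq, Finset.mem_range]
    constructor
    · rintro ⟨h1, h2, h3⟩
      exact ⟨by omega, h1, h3⟩
    · rintro ⟨h1, h2, h3⟩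
      exact ⟨h2, by omega, h3⟩
  rw [h2, Set.ncard_coe_finset]

end Pool.Agent.Results.MP_db5cd1_nt.AlmostPrimeInverses
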